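import Mathlib
import Pool.Agent.Helper669.Forcing

/-!
# Tree Prikry forcing adds no fresh subset of `κ⁺`

The forcing language is the one of `Pool.Agent.Helper669.Forcing`: a sentence is the set of the
conditions which force it; a name for a subset of a ground model set `X` is a map sending `x : X`
to the set of the conditions attached to `x`.

We show that tree Prikry forcing with an ultrafilter over `κ` (in particular with a `κ`-complete
one) adds no fresh subset of any ordinal of cofinality greater than `κ`.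
-/

set_option autoImplicit false

namespace Pool.Agent.Results.MP_becacd_lc.NoFreshSubset

open Cardinal Pool.Agent.Helper669.Forcing

universe u

section Defs

variable {K : Type u} [LinearOrder K]

/-- The conditions of tree Prikry forcing: pairs `(s, T)` where `s` is a finite increasing sequence
(the stem) and `T` is a tree of finite increasing sequences with stem `s`, all of whose nodes
extending `s` have a successor set in `U`. -/
structure TreePrikry (U : Ultrafilter K) where
  /-- the stem `s` -/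
  stem : List K
  /-- the tree `T` -/
  tree : Set (List K)
  /-- all members of `T` are increasing -/
  increasing : ∀ t ∈ tree, t.Pairwise (· < ·)
  /-- `T` is closed under initial segments -/
  closed : ∀ t ∈ tree, ∀ r, r <+: t → r ∈ tree
  /-- `s` is in `T` -/
  stem_mem : stem ∈ tree
  /-- all members of `T` are comparable with `s` -/
  comparable : ∀ t ∈ tree, t <+: stem ∨ stem <+: t
  /-- the nodes extending `s` have a successor set in `U` -/
  split : ∀ t ∈ tree, stem <+: t → {a : K | t ++ [a] ∈ tree} ∈ U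

/-- `(t, S) ≤ (s, T)` iff `t ∈ T`, `t` end-extends `s` and `S ⊆ T`. -/
instance (U : Ultrafilter K) : Preorder (TreePrikry U) where
  le q p := q.stem ∈ p.tree ∧ p.stem <+: q.stem ∧ q.tree ⊆ p.tree
  le_refl p := ⟨p.stem_mem, List.prefix_rfl, subset_rfl⟩
  le_trans _ _ _ h h' := ⟨h'.2.2 h.1, h'.2.1.trans h.2.1, h.2.2.trans h'.2.2⟩

variable {P : Type u} [Preorder P]

/-- The subset of the ground model set `X` named by `A` is in the ground model. -/
def InGround {X : Type*} (A : X → Set P) : Set P :=
  fex fun a : Set X => fall fun y : X =>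
    fand (fimp (fground (y ∈ a)) (meets (A y))) (fimp (meets (A y)) (fground (y ∈ a)))

/-- The name of the set of the members less than `x` of the set named by `A`. -/
def below {X : Type*} [LT X] (A : X → Set P) (x : X) : X → Set P := fun y => {p | p ∈ A y ∧ y < x}

/-- The subset of `X` named by `A` is fresh: it is not in the ground model, but all its proper
initial segments are. -/
def Fresh {X : Type*} [LT X] (A : X → Set P) : Set P :=
  fand (fnot (InGround A)) (fall fun x : X => InGround (below A x))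

end Defs

section Proof

variable {P : Type u} [Preorder P]

theorem down_InGround {X : Type*} (A : X → Set P) : Down (InGround A) := down_fex _

/-- what it means to force that `A` is the ground model set `a` -/
def Is {X : Type*} (A : X → Set P) (a : Set X) (p : P) : Prop :=
  ∀ y : X, (y ∈ a → p ∈ meets (A y)) ∧ (y ∉ a → p ∈ fnot (meets (A y)))

theorem meets_of_dense {N : Set P} {p : P} (h : ∀ q ≤ p, ∃ r ≤ q, r ∈ meets N) : p ∈ meets N := by
  intro q hq
  obtain ⟨r, hr, h'⟩ := h q hq
  obtain ⟨r', hr', s, hs, hle⟩ := h' r le_rfl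
  exact ⟨r', hr'.trans hr, s, hs, hle⟩

theorem is_iff {X : Type*} (A : X → Set P) (a : Set X) (p : P) :
    Is A a p ↔ ∀ y, p ∈ fand (fimp (fground (y ∈ a)) (meets (A y)))
      (fimp (meets (A y)) (fground (y ∈ a))) := by
  constructor
  · intro h y
    refine ⟨mem_fimp.2 fun q hq hy => ⟨q, le_rfl, down_meets _ _ ((h y).1 hy) q hq⟩,
      mem_fimp.2 fun q hq hy => ⟨q, le_rfl, ?_⟩⟩
    by_contra hya
    exact (h y).2 hya q hq hy
  · intro h y
    obtain ⟨h1, h2⟩ := h y
    constructor
    · intro hy
      exact meets_of_dense fun q hq => mem_fimp.1 h1 q hq hy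
    · intro hy q hq hq'
      obtain ⟨_, _, h3⟩ := mem_fimp.1 h2 q hq hq'
      exact hy h3

theorem Is.down {X : Type*} {A : X → Set P} {a : Set X} {p q : P} (h : Is A a p) (hq : q ≤ p) :
    Is A a q :=
  fun y => ⟨fun hy => down_meets _ _ ((h y).1 hy) q hq, fun hy => down_fnot _ _ ((h y).2 hy) q hq⟩

theorem mem_InGround {X : Type*} {A : X → Set P} {p : P} :
    p ∈ InGround A ↔ ∀ q ≤ p, ∃ r ≤ q, ∃ a, Is A a r := by
  unfold InGround
  rw [mem_fex]
  simp only [is_iff, mem_fall]

/-- A forcing notion which is the union of `κ` many sets of pairwise compatible conditions adds no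
fresh subset of an ordinal of cofinality greater than `κ`. -/
theorem main {S : Type u} (st : P → S)
    (hlink : ∀ p q : P, st p = st q → ∃ r, r ≤ p ∧ r ≤ q)
    {X : Type u} [LinearOrder X] [Nonempty X]
    (hX : ∀ f : S → X, ∃ b : X, ∀ s, f s < b) (A : X → Set P) (q : P) (hq : q ∈ Fresh A) :
    False := by
  classical
  obtain ⟨h1, h2⟩ := hq
  have h3 : ∀ x : X, ∃ r, r ≤ q ∧ ∃ a, Is (below A x) a r := by
    intro x
    obtain ⟨r, hr, a, ha⟩ := mem_InGround.1 (h2 x) q le_rfl
    exact ⟨r, hr, a, ha⟩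
  choose r hrq a ha using h3
  -- many `x` with the same `s`
  obtain ⟨s, hs⟩ : ∃ s, ∀ b : X, ∃ x, b ≤ x ∧ st (r x) = s := by
    by_contra hcon
    push Not at hcon
    choose b hb using hcon
    obtain ⟨c, hc⟩ := hX b
    exact hb (st (r c)) c (hc _).le rfl
  -- decided values
  have hdec : ∀ x y z : X, z < x → z < y → st (r x) = st (r y) → (z ∈ a x ↔ z ∈ a y) := by
    intro x y z hzx hzy hxy
    obtain ⟨t, ht1, ht2⟩ := hlink _ _ hxy
    have h4 := (ha x).down ht1 z
    have h5 := (ha y).down ht2 z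
    have e : ∀ w, z < w → below A w z = A z := by
      intro w hw
      ext p
      exact ⟨fun h => h.1, fun h => ⟨h, hw⟩⟩
    rw [e x hzx] at h4
    rw [e y hzy] at h5
    constructor
    · intro hz
      by_contra hz'
      exact h5.2 hz' t le_rfl (h4.1 hz)
    · intro hz
      by_contra hz'
      exact h4.2 hz' t le_rfl (h5.1 hz)
  -- a condition forcing that unboundedly many `r x` are in the generic filter
  obtain ⟨p, hpq, hp⟩ : ∃ p ≤ q, ∀ p' ≤ p, ∀ b : X, ∃ x, b ≤ x ∧ st (r x) = s ∧
      ∃ t, t ≤ p' ∧ t ≤ r x := by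
    by_contra hcon
    push Not at hcon
    let Bad : P → X → Prop := fun p' b => ∀ x, b ≤ x → st (r x) = s → ∀ t ≤ p', ¬ t ≤ r x
    have hb : ∀ c : S, ∃ b : X, ∀ p' : P, st p' = c → (∃ b', Bad p' b') →
        ∃ p'' : P, st p'' = c ∧ Bad p'' b := by
      intro c
      by_cases h : ∃ p' : P, st p' = c ∧ ∃ b', Bad p' b'
      · obtain ⟨p', hp', b', hb'⟩ := h
        exact ⟨b', fun _ _ _ => ⟨p', hp', hb'⟩⟩
      · refine ⟨Classical.arbitrary X, fun p' h1 h2 => absurd ⟨p', h1, h2⟩ h⟩
    choose b hb using hb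
    obtain ⟨c, hc⟩ := hX b
    obtain ⟨x, hx1, hx2⟩ := hs c
    obtain ⟨p', hp', b', hb'⟩ := hcon (r x) (hrq x)
    obtain ⟨p'', hp'', hbad⟩ := hb (st p') p' rfl ⟨b', hb'⟩
    obtain ⟨t, ht1, ht2⟩ := hlink p'' p' hp''
    exact hbad x ((hc _).le.trans hx1) hx2 t ht1 (ht2.trans hp')
  -- the set
  refine h1 p hpq (mem_InGround.2 fun p' hp' => ⟨p', le_rfl,
    {z | ∃ x, z < x ∧ st (r x) = s ∧ z ∈ a x}, fun z => ⟨?_, ?_⟩⟩)
  · rintro ⟨x, hzx, hxs, hz⟩
    refine meets_of_dense fun p'' hp'' => ?_
    obtain ⟨b, hb⟩ := hX fun _ => z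
    obtain ⟨y, hby, hys, t, ht1, ht2⟩ := hp p'' (hp''.trans hp') b
    have hzy : z < y := (hb s).trans_le hby
    have hz' : z ∈ a y := (hdec x y z hzx hzy (hxs.trans hys.symm)).1 hz
    have h6 := ((ha y).down ht2 z).1 hz'
    refine ⟨t, ht1, fun q' hq' => ?_⟩
    obtain ⟨r', hr', s', hs', hle⟩ := h6 q' hq'
    exact ⟨r', hr', s', hs'.1, hle⟩
  · intro hz p'' hp'' hmeet
    obtain ⟨b, hb⟩ := hX fun _ => z
    obtain ⟨y, hby, hys, t, ht1, ht2⟩ := hp p'' (hp''.trans hp') b
    have hzy : z < y := (hb s).trans_le hby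
    have hz' : z ∉ a y := fun h => hz ⟨y, hzy, hys, h⟩
    refine ((ha y).down ht2 z).2 hz' t le_rfl ?_
    intro q' hq'
    obtain ⟨r', hr', s', hs', hle⟩ := hmeet q' (hq'.trans ht1)
    exact ⟨r', hr', s', ⟨hs', hzy⟩, hle⟩

theorem link {K : Type u} [LinearOrder K] (U : Ultrafilter K) (p q : TreePrikry U)
    (h : p.stem = q.stem) : ∃ r, r ≤ p ∧ r ≤ q := by
  have hsplit : ∀ t ∈ p.tree ∩ q.tree, p.stem <+: t → {a : K | t ++ [a] ∈ p.tree ∩ q.tree} ∈ U :=
    fun t ht ht' => Filter.inter_mem (p.split t ht.1 ht') (q.split t ht.2 (by rw [← h]; exact ht'))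
  refine ⟨⟨p.stem, p.tree ∩ q.tree, fun t ht => p.increasing t ht.1,
    fun t ht r hr => ⟨p.closed t ht.1 r hr, q.closed t ht.2 r hr⟩,
    ⟨p.stem_mem, by rw [h]; exact q.stem_mem⟩, fun t ht => p.comparable t ht.1, hsplit⟩,
    ⟨p.stem_mem, List.prefix_rfl, Set.inter_subset_left⟩,
    ⟨?_, ?_, Set.inter_subset_right⟩⟩
  · change p.stem ∈ q.tree
    rw [h]
    exact q.stem_mem
  · change q.stem <+: p.stem
    rw [h]

end Proof

/-- **Tree Prikry forcing adds no fresh subset of `κ⁺`.**  Let `U` be an ultrafilter over the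
infinite cardinal `κ` (for example a `κ`-complete one over a measurable cardinal), and let `lam` be
an ordinal of cofinality greater than `κ`, for example `κ⁺`.  Then every condition of tree Prikry
forcing with `U` forces that there is no fresh subset of `lam`. -/
theorem result (κ : Cardinal.{u}) (hκ : ℵ₀ ≤ κ) (U : Ultrafilter κ.ord.ToType) :
    κ < (Order.succ κ).ord.cof ∧
    ∀ lam : Ordinal.{u}, κ < lam.cof → ∀ p : TreePrikry U,
      p ∈ fnot (fex fun A : lam.ToType → Set (TreePrikry U) => Fresh A) := by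
  constructor
  · rw [(Cardinal.isRegular_succ hκ).cof_ord]
    exact Order.lt_succ κ
  intro lam hlam p q hq hfr
  obtain ⟨r, hr, A, hA⟩ := mem_fex.1 hfr q le_rfl
  have hK : #κ.ord.ToType = κ := by simp
  have hinf : Infinite κ.ord.ToType := by
    rw [Cardinal.infinite_iff, hK]
    exact hκ
  have hne : Nonempty lam.ToType := by
    rw [← Order.cof_ne_zero_iff, Ordinal.cof_toType]
    exact ((Cardinal.aleph0_pos.trans_le hκ).trans hlam).ne'
  refine main (fun p : TreePrikry U => p.stem) (fun p q h => link U p q h) (fun f => ?_) A r hA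
  by_contra hcon
  push Not at hcon
  have hcof : IsCofinal (Set.range f) := by
    intro b
    obtain ⟨s, hs⟩ := hcon b
    exact ⟨f s, ⟨s, rfl⟩, hs⟩
  have h1 := Order.cof_le hcof
  rw [Ordinal.cof_toType] at h1
  have h2 : #(Set.range f) ≤ κ := by
    refine Cardinal.mk_range_le.trans ?_
    rw [Cardinal.mk_list_eq_mk, hK]
  exact absurd (hlam.trans_le (h1.trans h2)) (lt_irrefl _)

end Pool.Agent.Results.MP_becacd_lc.NoFreshSubset
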